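import Pool.Agent.H8.AV3.Stmts5

/-!
# Divisibility of the discriminant of the Jacobian
-/

set_option autoImplicit false

namespace Pool.Agent.H58.AV3C

open Matrix Polynomial Pool.AVR Pool.AV3

theorem disc_dvd {R : Type} [CommRing R] {u a b c : R} (hb : u ∣ b) (hc : u ^ 2 ∣ c) :
    u ^ 2 ∣ disc a b c := by
  obtain ⟨x, rfl⟩ := hb
  obtain ⟨y, rfl⟩ := hc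
  refine ⟨a ^ 2 * x ^ 2 - 4 * u * x ^ 3 - 4 * a ^ 3 * y + 18 * a * (u * x) * y -
    27 * u ^ 2 * y ^ 2, ?_⟩
  rw [disc]
  ring

theorem dsc_dvd {R : Type} [CommRing R] {τ u : R} {c : Fin 10 → R} (hb : u ∣ jb4 c)
    (hc : u ^ 2 ∣ jb6 c) : u ^ 2 ∣ dsc (Jc τ c) :=
  disc_dvd (hb.mul_left _) (hc.mul_left _)

theorem fct_thm : Pool.AV3.FCTStmt := by
  intro R _ τ π _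
  refine ⟨?_, ?_, ?_, ?_⟩
  · intro c k0 k1 k2
    obtain ⟨x0, h0⟩ := k0
    obtain ⟨x1, h1⟩ := k1
    obtain ⟨x2, h2⟩ := k2
    refine dsc_dvd ⟨0 - 6 * π ^ 1 * x0 * c 3 * c 7 * c 9 + 2 * π ^ 1 * x0 * c 3 * c 8 ^ 2 + 9 * π ^ 1 * x0 * c
      4 * c 6 * c 9 - 1 * π ^ 1 * x0 * c 4 * c 7 * c 8 - 6 * π ^ 1 * x0 * c 5 * c 6 * c 8 + 2 *
      π ^ 1 * x0 * c 5 * c 7 ^ 2 + 2 * π ^ 1 * x1 ^ 2 * c 7 * c 9 - 6 * π ^ 1 * x1 * x2 * c 6 *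
      c 9 + 2 * π ^ 1 * x1 * x2 * c 7 * c 8 - 1 * x1 * c 3 * c 4 * c 9 + 2 * x1 * c 3 * c 5 * c
      8 - 1 * x1 * c 4 * c 5 * c 7 + 2 * x1 * c 5 ^ 2 * c 6 + 2 * π ^ 1 * x2 ^ 2 * c 6 * c 8 + 2
      * x2 * c 3 ^ 2 * c 9 - 1 * x2 * c 3 * c 4 * c 8 + 2 * x2 * c 3 * c 5 * c 7 - 1 * x2 * c 4
      * c 5 * c 6, ?_⟩ ⟨0 - 27 * π ^ 2 * x0 ^ 2 * c 6 ^ 2 * c 9 ^ 2 + 18 * π ^ 2 * x0 ^ 2 * c 6 * c 7 * c 8 * c 9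
      - 4 * π ^ 2 * x0 ^ 2 * c 6 * c 8 ^ 3 - 4 * π ^ 2 * x0 ^ 2 * c 7 ^ 3 * c 9 + 1 * π ^ 2 * x0
      ^ 2 * c 7 ^ 2 * c 8 ^ 2 + 18 * π ^ 1 * x0 * x1 * c 3 * c 6 * c 9 ^ 2 - 2 * π ^ 1 * x0 * x1
      * c 3 * c 7 * c 8 * c 9 - 12 * π ^ 1 * x0 * x1 * c 4 * c 6 * c 8 * c 9 + 4 * π ^ 1 * x0 *
      x1 * c 4 * c 7 ^ 2 * c 9 - 6 * π ^ 1 * x0 * x1 * c 5 * c 6 * c 7 * c 9 + 8 * π ^ 1 * x0 *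
      x1 * c 5 * c 6 * c 8 ^ 2 - 2 * π ^ 1 * x0 * x1 * c 5 * c 7 ^ 2 * c 8 - 6 * π ^ 1 * x0 * x2
      * c 3 * c 6 * c 8 * c 9 + 8 * π ^ 1 * x0 * x2 * c 3 * c 7 ^ 2 * c 9 - 2 * π ^ 1 * x0 * x2
      * c 3 * c 7 * c 8 ^ 2 - 12 * π ^ 1 * x0 * x2 * c 4 * c 6 * c 7 * c 9 + 4 * π ^ 1 * x0 * x2
      * c 4 * c 6 * c 8 ^ 2 + 18 * π ^ 1 * x0 * x2 * c 5 * c 6 ^ 2 * c 9 - 2 * π ^ 1 * x0 * x2 *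
      c 5 * c 6 * c 7 * c 8 - 4 * x0 * c 3 ^ 3 * c 9 ^ 2 + 4 * x0 * c 3 ^ 2 * c 4 * c 8 * c 9 +
      8 * x0 * c 3 ^ 2 * c 5 * c 7 * c 9 - 4 * x0 * c 3 ^ 2 * c 5 * c 8 ^ 2 - 4 * x0 * c 3 * c 4
      ^ 2 * c 7 * c 9 - 12 * x0 * c 3 * c 4 * c 5 * c 6 * c 9 + 4 * x0 * c 3 * c 4 * c 5 * c 7 *
      c 8 + 8 * x0 * c 3 * c 5 ^ 2 * c 6 * c 8 - 4 * x0 * c 3 * c 5 ^ 2 * c 7 ^ 2 + 4 * x0 * c 4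
      ^ 3 * c 6 * c 9 - 4 * x0 * c 4 ^ 2 * c 5 * c 6 * c 8 + 4 * x0 * c 4 * c 5 ^ 2 * c 6 * c 7
      - 4 * x0 * c 5 ^ 3 * c 6 ^ 2 - 4 * π ^ 1 * x1 ^ 3 * c 6 * c 9 ^ 2 + 8 * π ^ 1 * x1 ^ 2 *
      x2 * c 6 * c 8 * c 9 - 4 * π ^ 1 * x1 ^ 2 * x2 * c 7 ^ 2 * c 9 + 1 * x1 ^ 2 * c 3 ^ 2 * c
      9 ^ 2 - 2 * x1 ^ 2 * c 3 * c 5 * c 7 * c 9 + 4 * x1 ^ 2 * c 4 * c 5 * c 6 * c 9 - 4 * x1 ^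
      2 * c 5 ^ 2 * c 6 * c 8 + 1 * x1 ^ 2 * c 5 ^ 2 * c 7 ^ 2 + 8 * π ^ 1 * x1 * x2 ^ 2 * c 6 *
      c 7 * c 9 - 4 * π ^ 1 * x1 * x2 ^ 2 * c 6 * c 8 ^ 2 - 2 * x1 * x2 * c 3 ^ 2 * c 8 * c 9 +
      4 * x1 * x2 * c 3 * c 4 * c 7 * c 9 - 2 * x1 * x2 * c 3 * c 5 * c 6 * c 9 - 2 * x1 * x2 *
      c 3 * c 5 * c 7 * c 8 - 4 * x1 * x2 * c 4 ^ 2 * c 6 * c 9 + 4 * x1 * x2 * c 4 * c 5 * c 6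
      * c 8 - 2 * x1 * x2 * c 5 ^ 2 * c 6 * c 7 - 4 * π ^ 1 * x2 ^ 3 * c 6 ^ 2 * c 9 - 4 * x2 ^
      2 * c 3 ^ 2 * c 7 * c 9 + 1 * x2 ^ 2 * c 3 ^ 2 * c 8 ^ 2 + 4 * x2 ^ 2 * c 3 * c 4 * c 6 *
      c 9 - 2 * x2 ^ 2 * c 3 * c 5 * c 6 * c 8 + 1 * x2 ^ 2 * c 5 ^ 2 * c 6 ^ 2, ?_⟩
    · simp only [jb4, h0, h1, h2]
      ring
    · simp only [jb6, h0, h1, h2]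
      ring
  · intro c k0 k1 k3 k6
    obtain ⟨x0, h0⟩ := k0
    obtain ⟨x1, h1⟩ := k1
    obtain ⟨x3, h3⟩ := k3
    obtain ⟨x6, h6⟩ := k6
    refine dsc_dvd ⟨0 - 6 * π ^ 1 * x0 * x3 * c 7 * c 9 + 2 * π ^ 1 * x0 * x3 * c 8 ^ 2 + 9 * π ^ 1 * x0 * c 4
      * x6 * c 9 - 1 * x0 * c 4 * c 7 * c 8 - 6 * π ^ 1 * x0 * c 5 * x6 * c 8 + 2 * x0 * c 5 * c
      7 ^ 2 + 2 * π ^ 1 * x1 ^ 2 * c 7 * c 9 - 6 * π ^ 1 * x1 * c 2 * x6 * c 9 + 2 * x1 * c 2 *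
      c 7 * c 8 - 1 * π ^ 1 * x1 * x3 * c 4 * c 9 + 2 * π ^ 1 * x1 * x3 * c 5 * c 8 - 1 * x1 * c
      4 * c 5 * c 7 + 2 * π ^ 1 * x1 * c 5 ^ 2 * x6 + 2 * c 2 ^ 2 * x6 * c 8 + 2 * π ^ 1 * c 2 *
      x3 ^ 2 * c 9 - 1 * c 2 * x3 * c 4 * c 8 + 2 * c 2 * x3 * c 5 * c 7 - 1 * c 2 * c 4 * c 5 *
      x6, ?_⟩ ⟨0 - 27 * π ^ 2 * x0 ^ 2 * x6 ^ 2 * c 9 ^ 2 + 18 * π ^ 1 * x0 ^ 2 * x6 * c 7 * c 8 * c 9 -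
      4 * π ^ 1 * x0 ^ 2 * x6 * c 8 ^ 3 - 4 * x0 ^ 2 * c 7 ^ 3 * c 9 + 1 * x0 ^ 2 * c 7 ^ 2 * c
      8 ^ 2 + 18 * π ^ 2 * x0 * x1 * x3 * x6 * c 9 ^ 2 - 2 * π ^ 1 * x0 * x1 * x3 * c 7 * c 8 *
      c 9 - 12 * π ^ 1 * x0 * x1 * c 4 * x6 * c 8 * c 9 + 4 * x0 * x1 * c 4 * c 7 ^ 2 * c 9 - 6
      * π ^ 1 * x0 * x1 * c 5 * x6 * c 7 * c 9 + 8 * π ^ 1 * x0 * x1 * c 5 * x6 * c 8 ^ 2 - 2 *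
      x0 * x1 * c 5 * c 7 ^ 2 * c 8 - 6 * π ^ 1 * x0 * c 2 * x3 * x6 * c 8 * c 9 + 8 * x0 * c 2
      * x3 * c 7 ^ 2 * c 9 - 2 * x0 * c 2 * x3 * c 7 * c 8 ^ 2 - 12 * x0 * c 2 * c 4 * x6 * c 7
      * c 9 + 4 * x0 * c 2 * c 4 * x6 * c 8 ^ 2 + 18 * π ^ 1 * x0 * c 2 * c 5 * x6 ^ 2 * c 9 - 2
      * x0 * c 2 * c 5 * x6 * c 7 * c 8 - 4 * π ^ 2 * x0 * x3 ^ 3 * c 9 ^ 2 + 4 * π ^ 1 * x0 *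
      x3 ^ 2 * c 4 * c 8 * c 9 + 8 * π ^ 1 * x0 * x3 ^ 2 * c 5 * c 7 * c 9 - 4 * π ^ 1 * x0 * x3
      ^ 2 * c 5 * c 8 ^ 2 - 4 * x0 * x3 * c 4 ^ 2 * c 7 * c 9 - 12 * π ^ 1 * x0 * x3 * c 4 * c 5
      * x6 * c 9 + 4 * x0 * x3 * c 4 * c 5 * c 7 * c 8 + 8 * π ^ 1 * x0 * x3 * c 5 ^ 2 * x6 * c
      8 - 4 * x0 * x3 * c 5 ^ 2 * c 7 ^ 2 + 4 * x0 * c 4 ^ 3 * x6 * c 9 - 4 * x0 * c 4 ^ 2 * c 5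
      * x6 * c 8 + 4 * x0 * c 4 * c 5 ^ 2 * x6 * c 7 - 4 * π ^ 1 * x0 * c 5 ^ 3 * x6 ^ 2 - 4 * π
      ^ 2 * x1 ^ 3 * x6 * c 9 ^ 2 + 8 * π ^ 1 * x1 ^ 2 * c 2 * x6 * c 8 * c 9 - 4 * x1 ^ 2 * c 2
      * c 7 ^ 2 * c 9 + 1 * π ^ 2 * x1 ^ 2 * x3 ^ 2 * c 9 ^ 2 - 2 * π ^ 1 * x1 ^ 2 * x3 * c 5 *
      c 7 * c 9 + 4 * π ^ 1 * x1 ^ 2 * c 4 * c 5 * x6 * c 9 - 4 * π ^ 1 * x1 ^ 2 * c 5 ^ 2 * x6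
      * c 8 + 1 * x1 ^ 2 * c 5 ^ 2 * c 7 ^ 2 + 8 * x1 * c 2 ^ 2 * x6 * c 7 * c 9 - 4 * x1 * c 2
      ^ 2 * x6 * c 8 ^ 2 - 2 * π ^ 1 * x1 * c 2 * x3 ^ 2 * c 8 * c 9 + 4 * x1 * c 2 * x3 * c 4 *
      c 7 * c 9 - 2 * π ^ 1 * x1 * c 2 * x3 * c 5 * x6 * c 9 - 2 * x1 * c 2 * x3 * c 5 * c 7 * c
      8 - 4 * x1 * c 2 * c 4 ^ 2 * x6 * c 9 + 4 * x1 * c 2 * c 4 * c 5 * x6 * c 8 - 2 * x1 * c 2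
      * c 5 ^ 2 * x6 * c 7 - 4 * c 2 ^ 3 * x6 ^ 2 * c 9 - 4 * c 2 ^ 2 * x3 ^ 2 * c 7 * c 9 + 1 *
      c 2 ^ 2 * x3 ^ 2 * c 8 ^ 2 + 4 * c 2 ^ 2 * x3 * c 4 * x6 * c 9 - 2 * c 2 ^ 2 * x3 * c 5 *
      x6 * c 8 + 1 * c 2 ^ 2 * c 5 ^ 2 * x6 ^ 2, ?_⟩
    · simp only [jb4, h0, h1, h3, h6]
      ring
    · simp only [jb6, h0, h1, h3, h6]
      ring
  · intro c k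
    obtain ⟨x0, h0⟩ := k 0 (by decide)
    obtain ⟨x1, h1⟩ := k 1 (by decide)
    obtain ⟨x2, h2⟩ := k 2 (by decide)
    obtain ⟨x3, h3⟩ := k 3 (by decide)
    obtain ⟨x4, h4⟩ := k 4 (by decide)
    obtain ⟨x5, h5⟩ := k 5 (by decide)
    refine dsc_dvd ⟨0 - 6 * π ^ 1 * x0 * x3 * c 7 * c 9 + 2 * π ^ 1 * x0 * x3 * c 8 ^ 2 + 9 * π ^ 1 * x0 * x4
      * c 6 * c 9 - 1 * π ^ 1 * x0 * x4 * c 7 * c 8 - 6 * π ^ 1 * x0 * x5 * c 6 * c 8 + 2 * π ^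
      1 * x0 * x5 * c 7 ^ 2 + 2 * π ^ 1 * x1 ^ 2 * c 7 * c 9 - 6 * π ^ 1 * x1 * x2 * c 6 * c 9 +
      2 * π ^ 1 * x1 * x2 * c 7 * c 8 - 1 * π ^ 2 * x1 * x3 * x4 * c 9 + 2 * π ^ 2 * x1 * x3 *
      x5 * c 8 - 1 * π ^ 2 * x1 * x4 * x5 * c 7 + 2 * π ^ 2 * x1 * x5 ^ 2 * c 6 + 2 * π ^ 1 * x2
      ^ 2 * c 6 * c 8 + 2 * π ^ 2 * x2 * x3 ^ 2 * c 9 - 1 * π ^ 2 * x2 * x3 * x4 * c 8 + 2 * π ^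
      2 * x2 * x3 * x5 * c 7 - 1 * π ^ 2 * x2 * x4 * x5 * c 6, ?_⟩ ⟨0 - 27 * x0 ^ 2 * c 6 ^ 2 * c 9 ^ 2 + 18 * x0 ^ 2 * c 6 * c 7 * c 8 * c 9 - 4 * x0 ^ 2 * c
      6 * c 8 ^ 3 - 4 * x0 ^ 2 * c 7 ^ 3 * c 9 + 1 * x0 ^ 2 * c 7 ^ 2 * c 8 ^ 2 + 18 * π ^ 1 *
      x0 * x1 * x3 * c 6 * c 9 ^ 2 - 2 * π ^ 1 * x0 * x1 * x3 * c 7 * c 8 * c 9 - 12 * π ^ 1 *
      x0 * x1 * x4 * c 6 * c 8 * c 9 + 4 * π ^ 1 * x0 * x1 * x4 * c 7 ^ 2 * c 9 - 6 * π ^ 1 * x0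
      * x1 * x5 * c 6 * c 7 * c 9 + 8 * π ^ 1 * x0 * x1 * x5 * c 6 * c 8 ^ 2 - 2 * π ^ 1 * x0 *
      x1 * x5 * c 7 ^ 2 * c 8 - 6 * π ^ 1 * x0 * x2 * x3 * c 6 * c 8 * c 9 + 8 * π ^ 1 * x0 * x2
      * x3 * c 7 ^ 2 * c 9 - 2 * π ^ 1 * x0 * x2 * x3 * c 7 * c 8 ^ 2 - 12 * π ^ 1 * x0 * x2 *
      x4 * c 6 * c 7 * c 9 + 4 * π ^ 1 * x0 * x2 * x4 * c 6 * c 8 ^ 2 + 18 * π ^ 1 * x0 * x2 *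
      x5 * c 6 ^ 2 * c 9 - 2 * π ^ 1 * x0 * x2 * x5 * c 6 * c 7 * c 8 - 4 * π ^ 2 * x0 * x3 ^ 3
      * c 9 ^ 2 + 4 * π ^ 2 * x0 * x3 ^ 2 * x4 * c 8 * c 9 + 8 * π ^ 2 * x0 * x3 ^ 2 * x5 * c 7
      * c 9 - 4 * π ^ 2 * x0 * x3 ^ 2 * x5 * c 8 ^ 2 - 4 * π ^ 2 * x0 * x3 * x4 ^ 2 * c 7 * c 9
      - 12 * π ^ 2 * x0 * x3 * x4 * x5 * c 6 * c 9 + 4 * π ^ 2 * x0 * x3 * x4 * x5 * c 7 * c 8 +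
      8 * π ^ 2 * x0 * x3 * x5 ^ 2 * c 6 * c 8 - 4 * π ^ 2 * x0 * x3 * x5 ^ 2 * c 7 ^ 2 + 4 * π
      ^ 2 * x0 * x4 ^ 3 * c 6 * c 9 - 4 * π ^ 2 * x0 * x4 ^ 2 * x5 * c 6 * c 8 + 4 * π ^ 2 * x0
      * x4 * x5 ^ 2 * c 6 * c 7 - 4 * π ^ 2 * x0 * x5 ^ 3 * c 6 ^ 2 - 4 * π ^ 1 * x1 ^ 3 * c 6 *
      c 9 ^ 2 + 8 * π ^ 1 * x1 ^ 2 * x2 * c 6 * c 8 * c 9 - 4 * π ^ 1 * x1 ^ 2 * x2 * c 7 ^ 2 *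
      c 9 + 1 * π ^ 2 * x1 ^ 2 * x3 ^ 2 * c 9 ^ 2 - 2 * π ^ 2 * x1 ^ 2 * x3 * x5 * c 7 * c 9 + 4
      * π ^ 2 * x1 ^ 2 * x4 * x5 * c 6 * c 9 - 4 * π ^ 2 * x1 ^ 2 * x5 ^ 2 * c 6 * c 8 + 1 * π ^
      2 * x1 ^ 2 * x5 ^ 2 * c 7 ^ 2 + 8 * π ^ 1 * x1 * x2 ^ 2 * c 6 * c 7 * c 9 - 4 * π ^ 1 * x1
      * x2 ^ 2 * c 6 * c 8 ^ 2 - 2 * π ^ 2 * x1 * x2 * x3 ^ 2 * c 8 * c 9 + 4 * π ^ 2 * x1 * x2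
      * x3 * x4 * c 7 * c 9 - 2 * π ^ 2 * x1 * x2 * x3 * x5 * c 6 * c 9 - 2 * π ^ 2 * x1 * x2 *
      x3 * x5 * c 7 * c 8 - 4 * π ^ 2 * x1 * x2 * x4 ^ 2 * c 6 * c 9 + 4 * π ^ 2 * x1 * x2 * x4
      * x5 * c 6 * c 8 - 2 * π ^ 2 * x1 * x2 * x5 ^ 2 * c 6 * c 7 - 4 * π ^ 1 * x2 ^ 3 * c 6 ^ 2
      * c 9 - 4 * π ^ 2 * x2 ^ 2 * x3 ^ 2 * c 7 * c 9 + 1 * π ^ 2 * x2 ^ 2 * x3 ^ 2 * c 8 ^ 2 +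
      4 * π ^ 2 * x2 ^ 2 * x3 * x4 * c 6 * c 9 - 2 * π ^ 2 * x2 ^ 2 * x3 * x5 * c 6 * c 8 + 1 *
      π ^ 2 * x2 ^ 2 * x5 ^ 2 * c 6 ^ 2, ?_⟩
    · simp only [jb4, h0, h1, h2, h3, h4, h5]
      ring
    · simp only [jb6, h0, h1, h2, h3, h4, h5]
      ring
  · intro c k1 k3 k6
    refine dsc_dvd ⟨2 * c 5 * c 7 - c 4 * c 8, ?_⟩ ⟨c 8 ^ 2 - 4 * c 7 * c 9, ?_⟩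
    · simp only [jb4, k1, k3, k6]
      ring
    · simp only [jb6, k1, k3, k6]
      ring

end Pool.Agent.H58.AV3C
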